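import Mathlib

open Set Filter Topology

namespace Pool.Agent.H.MP_8b3f09_an

variable {X : Type} [NormedAddCommGroup X] [NormedSpace ℝ X] [CompleteSpace X]

/-- uniform bound for the finite projections of an unconditional basis -/
theorem proj_bound {ι : Type} (e : ι → X) (a : X → ι → ℝ) (ha : ∀ x, HasSum (fun n => a x n • e n) x)
    (hu : ∀ x b, HasSum (fun n => b n • e n) x → b = a x) :
    ∃ K : ℝ, ∀ (A : Finset ι) x, ‖∑ i ∈ A, a x i • e i‖ ≤ K * ‖x‖ := by
  have hadd : ∀ x y, a (x + y) = a x + a y := fun x y =>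
    (hu _ _ (by simpa [add_smul] using (ha x).add (ha y))).symm
  have hsm : ∀ (c : ℝ) x, a (c • x) = c • a x := fun c x =>
    (hu _ _ (by simpa [smul_smul] using (ha x).const_smul c)).symm
  have hb : ∀ x, Memℓp (fun A : Finset ι => ∑ i ∈ A, a x i • e i) ⊤ := by
    intro x
    refine memℓp_infty ?_
    obtain ⟨s, hs⟩ := (ha x).summable.vanishing (Metric.ball_mem_nhds (0 : X) one_pos)
    classical
    refine ⟨∑ i ∈ s, ‖a x i • e i‖ + 1, ?_⟩
    rintro _ ⟨A, rfl⟩
    simp only
    rw [← Finset.sum_inter_add_sum_sdiff A s]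
    refine (norm_add_le _ _).trans (add_le_add ((norm_sum_le _ _).trans ?_) ?_)
    · exact Finset.sum_le_sum_of_subset_of_nonneg Finset.inter_subset_right fun _ _ _ => norm_nonneg _
    · exact (mem_ball_zero_iff.1 (hs _ Finset.sdiff_disjoint)).le
  let T : X →ₗ[ℝ] lp (fun _ : Finset ι => X) ⊤ :=
    { toFun := fun x => ⟨_, hb x⟩
      map_add' := fun x y => by
        ext A; simp [hadd, add_smul, Finset.sum_add_distrib]
      map_smul' := fun c x => by
        ext A; simp [hsm, Finset.smul_sum, smul_smul] }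
  have hT : ∀ x A, T x A = ∑ i ∈ A, a x i • e i := fun _ _ => rfl
  have hc : Continuous T := by
    refine T.continuous_of_seq_closed_graph fun u x y hx hy => ?_
    have hy' : ∀ A, Tendsto (fun k => T (u k) A) atTop (𝓝 (y A)) := fun A =>
      (((continuous_apply A).comp lp.uniformContinuous_coe.continuous).tendsto y).comp hy
    have h1 : ∀ i, ∃ b : ℝ, b • e i = y {i} := by
      intro i
      have hcl : IsClosed ((Submodule.span ℝ {e i} : Submodule ℝ X) : Set X) :=
        Submodule.closed_of_finiteDimensional _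
      refine Submodule.mem_span_singleton.1 (hcl.mem_of_tendsto (hy' {i}) (Eventually.of_forall ?_))
      intro k
      rw [hT, Finset.sum_singleton]
      exact Submodule.smul_mem _ _ (Submodule.mem_span_singleton_self _)
    choose b hb' using h1
    have h2 : ∀ A : Finset ι, y A = ∑ i ∈ A, b i • e i := by
      intro A
      refine tendsto_nhds_unique (hy' A) ?_
      simp only [hT]
      refine tendsto_finsetSum _ fun i _ => ?_
      rw [hb']
      simpa [hT] using hy' {i}
    have h3 : HasSum (fun n => b n • e n) x := by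
      refine Metric.tendsto_nhds.2 fun ε hε => ?_
      obtain ⟨k, k1, k2⟩ := ((Metric.tendsto_nhds.1 hx (ε / 3) (by positivity)).and
        (Metric.tendsto_nhds.1 hy (ε / 3) (by positivity))).exists
      filter_upwards [Metric.tendsto_nhds.1 (ha (u k)) (ε / 3) (by positivity)] with A hA
      have k3 : dist (T (u k) A) (y A) < ε / 3 := by
        rw [dist_eq_norm] at k2 ⊢
        exact lt_of_le_of_lt (lp.norm_apply_le_norm (by simp) (T (u k) - y) A) k2
      rw [hT, h2] at k3
      linarith [dist_triangle4 (∑ i ∈ A, b i • e i) (∑ i ∈ A, a (u k) i • e i) (u k) x,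
        dist_comm (∑ i ∈ A, b i • e i) (∑ i ∈ A, a (u k) i • e i)]
    ext A
    rw [h2, hT, hu x b h3]
  refine ⟨‖(⟨T, hc⟩ : X →L[ℝ] _)‖, fun A x => ?_⟩
  exact (lp.norm_apply_le_norm (by simp) (T x) A).trans ((⟨T, hc⟩ : X →L[ℝ] _).le_opNorm x)

theorem main (e : ℕ → X) (he : ∀ x : X, ∃! a : ℕ → ℝ, HasSum (fun n => a n • e n) x) :
    ∃ (f : ℕ → (X →L[ℝ] ℝ)) (α : ℕ → ℝ), (∀ n, f n ≠ 0 ∧ 0 < α n) ∧
      ∀ y : ℕ → X, (∀ n, y n ∈ Metric.closedBall (0 : X) 1 ∧ ‖f n‖ - α n < f n (y n)) →
        (0 : X) ∈ closure (convexHull ℝ (Set.range y)) := by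
  classical
  choose a ha hu using he
  beta_reduce at ha hu
  obtain ⟨K, hK⟩ := proj_bound e a ha hu
  have hadd : ∀ x y, a (x + y) = a x + a y := fun x y =>
    (hu _ _ (by simpa [add_smul] using (ha x).add (ha y))).symm
  have hsm : ∀ (c : ℝ) x, a (c • x) = c • a x := fun c x =>
    (hu _ _ (by simpa [smul_smul] using (ha x).const_smul c)).symm
  have hne : ∀ i, e i ≠ 0 := by
    intro i hi
    have h1 := hu 0 0 (by simpa using hasSum_zero)
    have h2 := hu 0 (Pi.single i 1) (by
      have : (fun n => (Pi.single i 1 : ℕ → ℝ) n • e n) = fun _ => 0 := by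
        funext n
        by_cases h : n = i
        · simp [h, hi]
        · simp [h]
      rw [this]; exact hasSum_zero)
    have := congrFun (h1.trans h2.symm) i
    simp at this
  let c : ℕ → X →L[ℝ] ℝ := fun i => LinearMap.mkContinuous
    { toFun := fun x => a x i
      map_add' := fun x y => by simp [hadd]
      map_smul' := fun c x => by simp [hsm] } (K / ‖e i‖) (fun x => by
      have := hK {i} x
      rw [Finset.sum_singleton, norm_smul] at this
      rw [div_mul_eq_mul_div, le_div_iff₀ (norm_pos_iff.2 (hne i))]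
      exact this)
  have hc : ∀ i x, c i x = a x i := fun _ _ => rfl
  obtain ⟨D, hD, hY⟩ := (countable_range c).isSeparable.span (R := ℝ)
  obtain ⟨g0, hg0, -⟩ := exists_dual_vector ℝ (e 0) (norm_ne_zero_iff.2 (hne 0))
  have hg0' : g0 ≠ 0 := by intro h; rw [h] at hg0; simp at hg0
  obtain ⟨u, hu'⟩ := ((hD.mono (diff_subset (t := {0}))).insert g0).exists_eq_range
    (insert_nonempty _ _)
  refine ⟨fun n => u (Nat.unpair n).1, fun n => 1 / (((Nat.unpair n).2 : ℝ) + 1),
    fun n => ⟨?_, by positivity⟩, fun y hy => ?_⟩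
  · have : u (Nat.unpair n).1 ∈ insert g0 (D \ {0}) := hu' ▸ mem_range_self _
    rcases this with h | h
    · exact fun h1 => hg0' (h.symm.trans h1)
    · exact h.2
  by_contra h0
  obtain ⟨f, δ, h1, h2⟩ := geometric_hahn_banach_point_closed (convex_convexHull ℝ _).closure
    isClosed_closure h0
  rw [map_zero] at h1
  have h3 : ∀ n, δ < f (y n) := fun n =>
    h2 _ (subset_closure (subset_convexHull ℝ _ (mem_range_self n)))
  have hle : ∀ (g : X →L[ℝ] ℝ) n, g (y n) ≤ ‖g‖ := fun g n =>
    (le_abs_self _).trans (g.unit_le_opNorm _ (mem_closedBall_zero_iff.1 (hy n).1))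
  have h4 : ∀ g ∈ Submodule.span ℝ (range c), ‖g‖ + δ ≤ ‖g + f‖ := by
    intro g hg
    refine closure_minimal (t := {g | ‖g‖ + δ ≤ ‖g + f‖}) (fun g hg => ?_)
      (isClosed_le (by fun_prop) (by fun_prop)) (hY hg)
    by_cases hz : g = 0
    · simp only [hz, mem_ofPred_eq, norm_zero, zero_add]
      linarith [h3 0, hle f 0]
    · have : g ∈ range u := hu' ▸ mem_insert_of_mem _ ⟨hg, hz⟩
      obtain ⟨i, rfl⟩ := this
      show ‖u i‖ + δ ≤ ‖u i + f‖
      refine le_of_forall_pos_lt_add fun ε hε => ?_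
      obtain ⟨m, hm⟩ := exists_nat_one_div_lt hε
      have k1 := (hy (Nat.pair i m)).2
      simp only [Nat.unpair_pair] at k1
      have k2 := hle (u i + f) (Nat.pair i m)
      rw [add_apply] at k2
      linarith [h3 (Nat.pair i m)]
  let F : Finset ℕ → X →L[ℝ] ℝ := fun A => ∑ i ∈ A, f (e i) • c i
  have hF : ∀ A x, F A x = f (∑ i ∈ A, a x i • e i) := by
    intro A x; simp [F, hc, mul_comm]
  have hFY : ∀ A, F A ∈ Submodule.span ℝ (range c) := fun A =>
    Submodule.sum_mem _ fun i _ => Submodule.smul_mem _ _ (Submodule.subset_span (mem_range_self i))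
  have step : ∀ g ∈ Submodule.span ℝ (range c), ∀ A : Finset ℕ,
      ∃ M, A ⊆ M ∧ ‖g‖ + δ / 2 ≤ ‖g + F M‖ := by
    intro g hg A
    obtain ⟨x, x1, x2⟩ := (g + f).exists_lt_apply_of_lt_opNorm (r := ‖g‖ + δ / 2)
      (by linarith [h4 g hg])
    have t1 : Tendsto (fun M => ‖(g + F M) x‖) atTop (𝓝 ‖(g + f) x‖) := by
      simp only [add_apply, hF]
      exact (tendsto_const_nhds.add ((f.continuous.tendsto x).comp (ha x))).norm
    obtain ⟨M, m1, m2⟩ := ((t1.eventually (lt_mem_nhds x2)).and (eventually_ge_atTop A)).exists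
    exact ⟨M, m2, m1.le.trans ((g + F M).unit_le_opNorm x x1.le)⟩
  have grow : ∀ k : ℕ, ∃ A, k * δ ≤ ‖F A‖ := by
    intro k
    induction k with
    | zero => exact ⟨∅, by simp⟩
    | succ k ih =>
      obtain ⟨A, hA⟩ := ih
      obtain ⟨M, m1, m2⟩ := step (-F A) (Submodule.neg_mem _ (hFY A)) A
      obtain ⟨N, n1, n2⟩ := step (F A - F M) (Submodule.sub_mem _ (hFY A) (hFY M)) M
      refine ⟨A ∪ (N \ M), ?_⟩
      have e1 : F (A ∪ (N \ M)) = F A - F M + F N := by
        simp only [F]
        rw [Finset.sum_union (Finset.disjoint_of_subset_left m1 Finset.disjoint_sdiff),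
          Finset.sum_sdiff_eq_sub n1]
        abel
      have e2 : ‖-F A + F M‖ = ‖F A - F M‖ := by rw [← norm_neg]; congr 1; abel
      rw [e1]; rw [norm_neg, e2] at m2
      push_cast; linarith
  obtain ⟨k, hk⟩ := exists_nat_gt (‖f‖ * |K| / δ)
  obtain ⟨A, hA⟩ := grow k
  have : ‖F A‖ ≤ ‖f‖ * |K| := by
    refine ContinuousLinearMap.opNorm_le_bound _ (by positivity) fun x => ?_
    rw [hF, mul_assoc]
    refine (f.le_opNorm _).trans (mul_le_mul_of_nonneg_left ((hK A x).trans ?_) (norm_nonneg _))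
    exact mul_le_mul_of_nonneg_right (le_abs_self K) (norm_nonneg _)
  rw [div_lt_iff₀ h1] at hk
  linarith

end Pool.Agent.H.MP_8b3f09_an
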